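import Pool.Agent.Y714.KE.BasA
import Pool.Agent.Y714.KE.Stm

set_option autoImplicit false
set_option linter.unusedSectionVars false
set_option linter.unusedVariables false

/-! # KE-LR: the local condition at a prime depends on the residues -/

namespace Pool.Agent.Y220.KE

open Pool.Agent.Y714.KF (FI sp ct nm pm ext br gl ubas qf bk el sg bf)
open Pool.Agent.Y714.KE
open NumberField FractionalIdeal Module Finset
open scoped nonZeroDivisors

namespace LrA

/-! ### one component -/

section comp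

variable {F : Type} [Field F] [NumberField F]

theorem mem_spI {I : FI F} {p : ℕ} {a : F} (ha : a ∈ I) : (p : F) * a ∈ sp (p : F) * I :=
  FractionalIdeal.mul_mem_mul (mem_spanSingleton_self _ _) ha

theorem sp_add_le {I : FI F} {p : ℕ} {x y : F} (u : ℤ) {a : F} (ha : a ∈ I)
    (h : x = u * y + p * a) :
    sp (p : F) * I + sp x ≤ sp (p : F) * I + sp y := by
  rw [← sup_eq_add, ← sup_eq_add]
  refine sup_le le_sup_left (Pool.Agent.Y714.KF.sp_le.2 ?_)
  rw [h]
  have h1 : sp y ≤ sp (p : F) * I ⊔ sp y := le_sup_right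
  have h2 : sp (p : F) * I ≤ sp (p : F) * I ⊔ sp y := le_sup_left
  refine ((sp (p : F) * I ⊔ sp y : FI F) : Submodule (𝓞 F) F).add_mem ?_ ?_
  · exact Pool.Agent.Y714.KF.intCast_mul_mem u (h1 (mem_spanSingleton_self _ _))
  · exact h2 (mem_spI ha)

theorem sp_add_congr {I : FI F} {p : ℕ} {x y : F} {a : F} (ha : a ∈ I) (h : x = y + p * a) :
    sp (p : F) * I + sp x = sp (p : F) * I + sp y := by
  refine le_antisymm (sp_add_le 1 ha (by rw [h]; simp)) (sp_add_le 1 (a := -a) ?_ ?_)
  · exact (I : Submodule (𝓞 F) F).neg_mem ha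
  · rw [h]; push_cast; ring

theorem spI_le_q {I : FI F} {p : ℕ} {q : Ideal (𝓞 F)} (hq : (p : 𝓞 F) ∈ q) :
    sp (p : F) * I ≤ (q : FI F) * I := by
  gcongr
  rw [Pool.Agent.Y714.KF.sp_le]
  have := (FractionalIdeal.mem_coeIdeal_of_mem (𝓞 F)⁰ (P := F) hq)
  simpa using this

theorem spI_le {I : FI F} (p : ℕ) : sp (p : F) * I ≤ I := by
  calc sp (p : F) * I ≤ 1 * I := by
        gcongr
        rw [Pool.Agent.Y714.KF.sp_le]
        have := FractionalIdeal.coe_mem_one (𝓞 F)⁰ (P := F) (p : 𝓞 F)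
        simpa using this
    _ = I := one_mul I

theorem q_le {I : FI F} (q : Ideal (𝓞 F)) : (q : FI F) * I ≤ I := by
  calc (q : FI F) * I ≤ 1 * I := by
        gcongr
        exact coeIdeal_le_one
    _ = I := one_mul _

theorem el_congr {p : ℕ} (b : Basis (Fin (finrank ℚ F)) ℚ F) {z z' : Fin (finrank ℚ F) → ℤ}
    (h : ∀ i, (z i : ZMod p) = (z' i : ZMod p)) : ∃ w : Fin (finrank ℚ F) → ℤ,
    el b z = el b z' + p * el b w := by
  have h1 : ∀ i, ∃ w : ℤ, z i = z' i + p * w := by
    intro i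
    have h2 := (ZMod.intCast_eq_intCast_iff_dvd_sub (z' i) (z i) p).1 (h i).symm
    obtain ⟨w, hw⟩ := h2
    exact ⟨w, by linarith⟩
  choose w hw using h1
  refine ⟨w, ?_⟩
  have h2 : z = z' + (p : ℤ) • w := by
    funext i
    simp only [Pi.add_apply, Pi.smul_apply, smul_eq_mul]
    exact hw i
  rw [h2, Pool.Agent.Y714.KF.el_add, Pool.Agent.Y714.KF.el_smul]
  push_cast
  ring

/-- the norm of a proper ideal is not one -/
theorem nm_q_ne {I : FI F} (hI : I ≠ 0) {q : Ideal (𝓞 F)} (hq : q.IsPrime)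
    (h : nm ((q : FI F) * I) = nm I) : False := by
  have hIp : 0 < nm I := Pool.Agent.Y714.KF.nm_pos hI
  rw [nm, map_mul] at h
  have g5 : absNorm (q : FI F) = 1 := by
    have g6 : (absNorm (q : FI F) - 1) * nm I = 0 := by
      rw [sub_mul, one_mul, nm, h, sub_self]
    rcases mul_eq_zero.1 g6 with g7 | g7
    · linarith
    · exact absurd g7 hIp.ne'
  rw [coeIdeal_absNorm] at g5
  have g6 : Ideal.absNorm q = 1 := by exact_mod_cast g5
  exact hq.ne_top (Ideal.absNorm_eq_one_iff.1 g6)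

end comp

variable {s : Type} [Fintype s] [DecidableEq s] {K : s → Type} [∀ i, Field (K i)]
  [∀ i, NumberField (K i)]

/-- the good lifts -/
def Gd (p : ℕ) (I : FA K) (b : Bs K) (z : Ix K ⊕ Ix K → ℤ) : Prop :=
  (∀ (i : s) (q : Ideal (𝓞 (K i))), q.IsPrime → (p : 𝓞 (K i)) ∈ q →
    ¬ ((pr b z).1 i ∈ (q : FI (K i)) * I i ∧ (pr b z).2 i ∈ (q : FI (K i)) * I i)) ∧
  (∀ a c : ℤ, ¬ ((p : ℤ) ∣ a ∧ (p : ℤ) ∣ c) → ∀ m ≤ dg K, dg K ≤ 2 * m →
    nA (fun i => sp (p : K i) * I i + sp ((a • (pr b z).1 + c • (pr b z).2) i)) ≠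
      (p : ℚ) ^ m * nA I)

theorem zsm (a c : ℤ) (x y : Al K) (i : s) :
    (a • x + c • y) i = (a : K i) * x i + (c : K i) * y i := by
  rw [Pi.add_apply, Pi.smul_apply, Pi.smul_apply, zsmul_eq_mul, zsmul_eq_mul]

theorem Gd.congr {p : ℕ} {I : FU K} {b : Bs K} (hb : IsB I b)
    {z z' : Ix K ⊕ Ix K → ℤ}
    (h : ∀ i, (z i : ZMod p) = (z' i : ZMod p)) (hG : Gd p (cf I) b z) : Gd p (cf I) b z' := by
  choose w1 hw1 using fun i : s => el_congr (b i) (z := fun j => z' (Sum.inl ⟨i, j⟩))
    (z' := fun j => z (Sum.inl ⟨i, j⟩)) (fun j => (h (Sum.inl ⟨i, j⟩)).symm)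
  choose w2 hw2 using fun i : s => el_congr (b i) (z := fun j => z' (Sum.inr ⟨i, j⟩))
    (z' := fun j => z (Sum.inr ⟨i, j⟩)) (fun j => (h (Sum.inr ⟨i, j⟩)).symm)
  have m1 : ∀ i, el (b i) (w1 i) ∈ cf I i := fun i => (hb i _).2 ⟨w1 i, rfl⟩
  have m2 : ∀ i, el (b i) (w2 i) ∈ cf I i := fun i => (hb i _).2 ⟨w2 i, rfl⟩
  have e1 : ∀ i, (pr b z').1 i = (pr b z).1 i + p * el (b i) (w1 i) := hw1
  have e2 : ∀ i, (pr b z').2 i = (pr b z).2 i + p * el (b i) (w2 i) := hw2
  refine ⟨?_, ?_⟩
  · rintro i q hq hpq ⟨h1, h2⟩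
    have h3 := spI_le_q (I := cf I i) hpq
    refine hG.1 i q hq hpq ⟨?_, ?_⟩
    · have h4 := (((q : FI (K i)) * cf I i : FI (K i)) : Submodule (𝓞 (K i)) (K i)).sub_mem h1
        (h3 (mem_spI (m1 i)))
      rw [e1, add_sub_cancel_right] at h4
      exact h4
    · have h4 := (((q : FI (K i)) * cf I i : FI (K i)) : Submodule (𝓞 (K i)) (K i)).sub_mem h2
        (h3 (mem_spI (m2 i)))
      rw [e2, add_sub_cancel_right] at h4
      exact h4
  · intro a c hac m hm hm'
    have h1 := hG.2 a c hac m hm hm'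
    have h2 : ∀ i, (a : K i) * el (b i) (w1 i) + (c : K i) * el (b i) (w2 i) ∈ cf I i := fun i =>
      (cf I i : Submodule (𝓞 (K i)) (K i)).add_mem
        (Pool.Agent.Y714.KF.intCast_mul_mem a (m1 i)) (Pool.Agent.Y714.KF.intCast_mul_mem c (m2 i))
    have h3 : (fun i => sp (p : K i) * cf I i + sp ((a • (pr b z').1 + c • (pr b z').2) i)) =
        fun i => sp (p : K i) * cf I i + sp ((a • (pr b z).1 + c • (pr b z).2) i) := by
      funext i
      refine sp_add_congr (h2 i) ?_
      rw [zsm, zsm, e1, e2]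
      ring
    rw [h3]
    exact h1

theorem loc_iff {p : ℕ} {I : FA K} {b : Bs K} {z : Ix K ⊕ Ix K → ℤ} (hi : IN (pr b z)) :
    Loc p I (LT (pr b z)) ↔ Gd p I b z := by
  have hdv : ∀ a c : ℤ, (∃ y ∈ LT (pr b z), a • (pr b z).1 + c • (pr b z).2 = (p : ℤ) • y) ↔
      ((p : ℤ) ∣ a ∧ (p : ℤ) ∣ c) := by
    intro a c
    constructor
    · rintro ⟨y, hy, hy'⟩
      obtain ⟨k, l, rfl⟩ := mem_LT.1 hy
      have h1 : a - p * k = 0 ∧ c - p * l = 0 := by
        have h3 := hi ((a - p * k : ℤ) : ℚ) ((c - p * l : ℤ) : ℚ) (by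
          rw [Int.cast_smul_eq_zsmul, Int.cast_smul_eq_zsmul]
          have h2 : (a - p * k) • (pr b z).1 + (c - p * l) • (pr b z).2 =
              (a • (pr b z).1 + c • (pr b z).2) - (p : ℤ) • (k • (pr b z).1 + l • (pr b z).2) := by
            module
          rw [h2, hy', sub_self])
        exact ⟨by exact_mod_cast h3.1, by exact_mod_cast h3.2⟩
      refine ⟨⟨k, ?_⟩, ⟨l, ?_⟩⟩
      · have h2 := h1.1
        rw [sub_eq_zero] at h2
        exact h2
      · have h2 := h1.2
        rw [sub_eq_zero] at h2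
        exact h2
    · rintro ⟨⟨k, rfl⟩, ⟨l, rfl⟩⟩
      exact ⟨_, mem_LT.2 ⟨k, l, rfl⟩, by module⟩
  unfold Loc Gd Cf Rf
  constructor
  · rintro ⟨h1, h2⟩
    refine ⟨?_, ?_⟩
    · rintro i q hq hpq ⟨h3, h4⟩
      refine h1 ⟨i, q, hq, hpq, fun x hx => ?_⟩
      obtain ⟨k, l, rfl⟩ := mem_LT.1 hx
      rw [zsm]
      exact (((q : FI (K i)) * I i : FI (K i)) : Submodule (𝓞 (K i)) (K i)).add_mem
        (Pool.Agent.Y714.KF.intCast_mul_mem k h3) (Pool.Agent.Y714.KF.intCast_mul_mem l h4)
    · intro a c hac m hm hm' he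
      exact h2 m hm hm' ⟨_, mem_LT.2 ⟨a, c, rfl⟩, fun h => hac ((hdv a c).1 h), he⟩
  · rintro ⟨h1, h2⟩
    refine ⟨?_, ?_⟩
    · rintro ⟨i, q, hq, hpq, h3⟩
      exact h1 i q hq hpq ⟨h3 _ (fst_mem_LT _), h3 _ (snd_mem_LT _)⟩
    · rintro m hm hm' ⟨x, hx, hx', he⟩
      obtain ⟨a, c, rfl⟩ := mem_LT.1 hx
      exact h2 a c (fun h => hx' ((hdv a c).2 h)) m hm hm' he

/-- the residues of a family of ideals -/
def Rs (p : ℕ) (b : Bs K) (J : FA K) : Set (Ix K → ZMod p) :=
  {t | ∃ z : Ix K → ℤ, (fun j => (z j : ZMod p)) = t ∧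
    ∀ i, el (b i) (fun j => z ⟨i, j⟩) ∈ J i}

/-- the linear forms -/
def lfo (p : ℕ) (k : Option (ZMod p)) (t : Ix K ⊕ Ix K → ZMod p) : Ix K → ZMod p :=
  match k with
  | none => fun i => t (Sum.inr i)
  | some k => fun i => t (Sum.inl i) + k * t (Sum.inr i)

theorem card_Ix : Fintype.card (Ix K) = dg K := by
  rw [Fintype.card_sigma]
  simp only [Fintype.card_fin]
  rfl

theorem ncard_lfo {p : ℕ} [NeZero p] (k : Option (ZMod p)) (R : Set (Ix K → ZMod p)) :
    {t : Ix K ⊕ Ix K → ZMod p | lfo (K := K) p k t ∈ R}.ncard ≤ p ^ dg K * R.ncard := by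
  classical
  have hc : (Set.univ : Set (Ix K → ZMod p)).ncard = p ^ dg K := by
    rw [Set.ncard_univ, Nat.card_eq_fintype_card, Fintype.card_fun, ZMod.card, card_Ix]
  rw [← hc, ← Set.ncard_prod]
  cases k with
  | none =>
    refine Set.ncard_le_ncard_of_injOn (fun t => (fun i => t (Sum.inl i), fun i => t (Sum.inr i)))
      ?_ ?_ (Set.toFinite _)
    · intro t ht
      exact ⟨Set.mem_univ _, ht⟩
    · intro t _ t' _ h
      simp only [Prod.mk.injEq] at h
      funext i
      rcases i with i | i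
      · exact congrFun h.1 i
      · exact congrFun h.2 i
  | some k =>
    refine Set.ncard_le_ncard_of_injOn
      (fun t => (fun i => t (Sum.inr i), lfo (K := K) p (some k) t)) ?_ ?_ (Set.toFinite _)
    · intro t ht
      exact ⟨Set.mem_univ _, ht⟩
    · intro t _ t' _ h
      simp only [Prod.mk.injEq] at h
      funext i
      rcases i with i | i
      · have h1 := congrFun h.1 i
        have h2 := congrFun h.2 i
        simp only [lfo] at h1 h2
        rw [h1] at h2
        exact add_right_cancel h2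
      · exact congrFun h.1 i

theorem ncard_two {p : ℕ} [NeZero p] (R : Set (Ix K → ZMod p)) :
    {t : Ix K ⊕ Ix K → ZMod p | (fun i => t (Sum.inl i)) ∈ R ∧
      (fun i => t (Sum.inr i)) ∈ R}.ncard ≤ R.ncard * R.ncard := by
  classical
  rw [← Set.ncard_prod]
  refine Set.ncard_le_ncard_of_injOn (fun t => (fun i => t (Sum.inl i), fun i => t (Sum.inr i)))
      ?_ ?_ (Set.toFinite _)
  · intro t ht
    exact ⟨ht.1, ht.2⟩
  · intro t _ t' _ h
    simp only [Prod.mk.injEq] at h
    funext i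
    rcases i with i | i
    · exact congrFun h.1 i
    · exact congrFun h.2 i

theorem exists_coef {p : ℕ} (hp : p.Prime) {a c : ℤ} (hac : ¬ ((p : ℤ) ∣ a ∧ (p : ℤ) ∣ c))
    {I : FU K} {J : FA K} {b : Bs K} (hb : IsB I b)
    (hJ : ∀ i, sp (p : K i) * cf I i ≤ J i) (z : Ix K ⊕ Ix K → ℤ)
    (hx : ∀ i, (a : K i) * (pr b z).1 i + (c : K i) * (pr b z).2 i ∈ J i) :
    ∃ k : Option (ZMod p), lfo (K := K) p k (fun i => (z i : ZMod p)) ∈ Rs p b J := by
  have hpi : Prime (p : ℤ) := Nat.prime_iff_prime_int.1 hp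
  have hcop : ∀ a : ℤ, ¬ (p : ℤ) ∣ a → ∃ v w : ℤ, v * a + w * p = 1 := by
    intro a ha
    obtain ⟨u, v, huv⟩ := hpi.irreducible.coprime_iff_not_dvd.2 ha
    exact ⟨v, u, by linarith⟩
  have m1 : ∀ i, (pr b z).1 i ∈ cf I i := fun i => (hb i _).2 ⟨_, rfl⟩
  have m2 : ∀ i, (pr b z).2 i ∈ cf I i := fun i => (hb i _).2 ⟨_, rfl⟩
  by_cases hi : (p : ℤ) ∣ a
  · have hj : ¬ (p : ℤ) ∣ c := fun h => hac ⟨hi, h⟩
    obtain ⟨a', rfl⟩ := hi
    obtain ⟨v, w, hvw⟩ := hcop c hj
    refine ⟨none, fun l => z (Sum.inr l), rfl, fun i => ?_⟩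
    have h1 : (v : K i) * c + w * p = 1 := by exact_mod_cast hvw
    have h2 : (w : K i) * (pr b z).2 i + ((-(v * a') : ℤ) : K i) * (pr b z).1 i ∈ cf I i :=
      (cf I i : Submodule (𝓞 (K i)) (K i)).add_mem
        (Pool.Agent.Y714.KF.intCast_mul_mem w (m2 i)) (Pool.Agent.Y714.KF.intCast_mul_mem _ (m1 i))
    have h3 := (J i : Submodule (𝓞 (K i)) (K i)).add_mem
      (Pool.Agent.Y714.KF.intCast_mul_mem v (hx i)) (hJ i (mem_spI h2))
    have h4 : el (b i) (fun l => z (Sum.inr ⟨i, l⟩)) =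
        (v : K i) * (((p * a' : ℤ) : K i) * (pr b z).1 i + c * (pr b z).2 i) +
        p * ((w : K i) * (pr b z).2 i + ((-(v * a') : ℤ) : K i) * (pr b z).1 i) := by
      change (pr b z).2 i = _
      push_cast
      linear_combination (-(pr b z).2 i) * h1
    rw [h4]
    exact h3
  · obtain ⟨v, w, hvw⟩ := hcop a hi
    refine ⟨some ((v * c : ℤ) : ZMod p),
      (fun l => z (Sum.inl l)) + (v * c) • (fun l => z (Sum.inr l)), ?_, fun i => ?_⟩
    · funext l
      simp only [lfo, Pi.add_apply, Pi.smul_apply, smul_eq_mul]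
      push_cast
      ring
    · have h1 : (v : K i) * a + w * p = 1 := by exact_mod_cast hvw
      have h3 := (J i : Submodule (𝓞 (K i)) (K i)).add_mem
        (Pool.Agent.Y714.KF.intCast_mul_mem v (hx i))
        (hJ i (mem_spI (Pool.Agent.Y714.KF.intCast_mul_mem w (m1 i))))
      have h5 : (fun j => ((fun l => z (Sum.inl l)) + (v * c) • (fun l => z (Sum.inr l)) :
          Ix K → ℤ) ⟨i, j⟩) =
          (fun j => z (Sum.inl ⟨i, j⟩)) + (v * c) • (fun j => z (Sum.inr ⟨i, j⟩)) := rfl
      rw [h5, Pool.Agent.Y714.KF.el_add, Pool.Agent.Y714.KF.el_smul]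
      have h4 : el (b i) (fun l => z (Sum.inl ⟨i, l⟩)) +
          ((v * c : ℤ) : K i) * el (b i) (fun l => z (Sum.inr ⟨i, l⟩)) =
          (v : K i) * ((a : K i) * (pr b z).1 i + c * (pr b z).2 i) +
            p * ((w : K i) * (pr b z).1 i) := by
        change (pr b z).1 i + ((v * c : ℤ) : K i) * (pr b z).2 i = _
        push_cast
        linear_combination (-(pr b z).1 i) * h1
      rw [h4]
      exact h3

end LrA

open LrA

variable {s : Type} [Fintype s] [DecidableEq s] {K : s → Type} [∀ i, Field (K i)]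
  [∀ i, NumberField (K i)]

theorem lr (h1 : S_DIV K) (h2 : S_CNT K) : S_LR K := by
  classical
  intro _ hn I b hb
  refine ⟨2 ^ (dg K + 2), by positivity, ?_⟩
  intro p hp
  have : NeZero p := ⟨hp.ne_zero⟩
  have hI : ∀ i, cf I i ≠ 0 := fun i => (I i).ne_zero
  have hIp : 0 < nA (cf I) := nA_pos hI
  have hp1 : (1 : ℚ) < p := by exact_mod_cast hp.one_lt
  refine ⟨{t | ∃ z : Ix K ⊕ Ix K → ℤ, (fun i => (z i : ZMod p)) = t ∧
    Gd p (cf I) b z}, ?_, ?_⟩
  · intro z hz
    rw [loc_iff hz]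
    constructor
    · intro h
      exact ⟨z, rfl, h⟩
    · rintro ⟨z', hz', h'⟩
      exact h'.congr hb (fun i => congrFun hz' i)
  · set F : Finset (FA K) := (h1 p hp I).1.toFinset with hF
    have hFm : ∀ J, J ∈ F ↔ ∀ i, sp (p : K i) * cf I i ≤ J i ∧ J i ≤ cf I i := by
      intro J
      rw [hF, Set.Finite.mem_toFinset]
      rfl
    have hFc : F.card ≤ 2 ^ dg K := by
      have := (h1 p hp I).2
      rwa [Set.ncard_eq_toFinset_card _ (h1 p hp I).1] at this
    set A : FA K → Set (Ix K ⊕ Ix K → ZMod p) := fun J =>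
      {t | (p : ℚ) * nA (cf I) ≤ nA J ∧ (fun i => t (Sum.inl i)) ∈ Rs p b J ∧
        (fun i => t (Sum.inr i)) ∈ Rs p b J} with hA
    set B : FA K → Option (ZMod p) → Set (Ix K ⊕ Ix K → ZMod p) :=
      fun J k => {t | (p : ℚ) ^ 3 * nA (cf I) ≤ nA J ∧ lfo (K := K) p k t ∈ Rs p b J} with hB
    have hRs : ∀ J ∈ F, ∀ e : ℕ, e ≤ dg K → (p : ℚ) ^ e * nA (cf I) ≤ nA J →
        (Rs p b J).ncard ≤ p ^ (dg K - e) := by
      intro J hJ e he hle
      have g1 : ∀ i, sp (p : K i) * cf I i ≤ J i := fun i => ((hFm J).1 hJ i).1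
      have g2 : ∀ i, J i ≤ cf I i := fun i => ((hFm J).1 hJ i).2
      obtain ⟨m, hm, hmJ⟩ := exists_powA hp hI g1 g2
      have g3 : (Rs p b J).ncard * p ^ m = p ^ dg K := h2 p hp I b hb J m g1 g2 hmJ
      have g4 : e ≤ m := by
        rw [hmJ] at hle
        have g5 := le_of_mul_le_mul_right hle hIp
        exact (pow_le_pow_iff_right₀ hp1).1 g5
      have g6 : (Rs p b J).ncard * p ^ e ≤ p ^ (dg K - e) * p ^ e := by
        rw [← pow_add, Nat.sub_add_cancel he, ← g3]
        exact Nat.mul_le_mul_left _ (Nat.pow_le_pow_right hp.pos g4)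
      exact Nat.le_of_mul_le_mul_right g6 (pow_pos hp.pos _)
    have hAc : ∀ J ∈ F, (A J).ncard ≤ p ^ (2 * dg K - 2) := by
      intro J hJ
      by_cases hc : (p : ℚ) * nA (cf I) ≤ nA J
      · have g1 := hRs J hJ 1 (by omega) (by rwa [pow_one])
        calc (A J).ncard ≤ (Rs p b J).ncard * (Rs p b J).ncard := by
              refine le_trans (Set.ncard_le_ncard ?_ (Set.toFinite _)) (ncard_two (K := K) (Rs p b J))
              intro t ht
              exact ht.2
          _ ≤ p ^ (dg K - 1) * p ^ (dg K - 1) := Nat.mul_le_mul g1 g1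
          _ = p ^ (2 * dg K - 2) := by
              rw [← pow_add]
              congr 1
              omega
      · have g1 : A J = ∅ := by
          ext t
          simp only [hA, Set.mem_ofPred_eq, Set.mem_empty_iff_false, iff_false]
          exact fun h => hc h.1
        rw [g1, Set.ncard_empty]
        exact Nat.zero_le _
    have hBc : ∀ J ∈ F, ∀ k, (B J k).ncard ≤ p ^ (2 * dg K - 3) := by
      intro J hJ k
      by_cases hc : (p : ℚ) ^ 3 * nA (cf I) ≤ nA J
      · have g1 := hRs J hJ 3 (by omega) hc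
        calc (B J k).ncard ≤ p ^ dg K * (Rs p b J).ncard := by
              refine le_trans (Set.ncard_le_ncard ?_ (Set.toFinite _))
                (ncard_lfo (K := K) k (Rs p b J))
              intro t ht
              exact ht.2
          _ ≤ p ^ dg K * p ^ (dg K - 3) := Nat.mul_le_mul_left _ g1
          _ = p ^ (2 * dg K - 3) := by
              rw [← pow_add]
              congr 1
              omega
      · have g1 : B J k = ∅ := by
          ext t
          simp only [hB, Set.mem_ofPred_eq, Set.mem_empty_iff_false, iff_false]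
          exact fun h => hc h.1
        rw [g1, Set.ncard_empty]
        exact Nat.zero_le _
    have hcov : {t | ∃ z : Ix K ⊕ Ix K → ℤ,
        (fun i => (z i : ZMod p)) = t ∧ Gd p (cf I) b z}ᶜ ⊆
        ⋃ J ∈ F, (A J ∪ ⋃ k ∈ (Finset.univ : Finset (Option (ZMod p))), B J k) := by
      intro t ht
      obtain ⟨z, rfl⟩ : ∃ z : Ix K ⊕ Ix K → ℤ, (fun i => (z i : ZMod p)) = t := by
        choose z hz using fun i => ZMod.intCast_surjective (t i)
        exact ⟨z, funext hz⟩
      have hz : ¬ Gd p (cf I) b z := fun h => ht ⟨z, rfl, h⟩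
      have m1 : ∀ i, (pr b z).1 i ∈ cf I i := fun i => (hb i _).2 ⟨_, rfl⟩
      have m2 : ∀ i, (pr b z).2 i ∈ cf I i := fun i => (hb i _).2 ⟨_, rfl⟩
      simp only [Set.mem_iUnion, Set.mem_union, exists_prop]
      rw [Gd, not_and_or] at hz
      rcases hz with hz | hz
      · push Not at hz
        obtain ⟨i₀, q, hq, hpq, g1, g2⟩ := hz
        set J : FA K := Function.update (cf I) i₀ ((q : FI (K i₀)) * cf I i₀) with hJ
        have hJ0 : J i₀ = (q : FI (K i₀)) * cf I i₀ := by rw [hJ, Function.update_self]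
        have hJ1 : ∀ i, i ≠ i₀ → J i = cf I i := fun i hi => by
          rw [hJ, Function.update_of_ne hi]
        have g3 : ∀ i, sp (p : K i) * cf I i ≤ J i := by
          intro i
          by_cases hi : i = i₀
          · subst hi
            rw [hJ0]
            exact spI_le_q hpq
          · rw [hJ1 i hi]
            exact spI_le p
        have g4 : ∀ i, J i ≤ cf I i := by
          intro i
          by_cases hi : i = i₀
          · subst hi
            rw [hJ0]
            exact q_le q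
          · rw [hJ1 i hi]
        have g5 : ∀ i, (pr b z).1 i ∈ J i := by
          intro i
          by_cases hi : i = i₀
          · subst hi
            rw [hJ0]
            exact g1
          · rw [hJ1 i hi]
            exact m1 i
        have g6 : ∀ i, (pr b z).2 i ∈ J i := by
          intro i
          by_cases hi : i = i₀
          · subst hi
            rw [hJ0]
            exact g2
          · rw [hJ1 i hi]
            exact m2 i
        refine ⟨J, (hFm _).2 fun i => ⟨g3 i, g4 i⟩, Or.inl ⟨?_, ⟨fun l => z (Sum.inl l), rfl, g5⟩,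
          ⟨fun l => z (Sum.inr l), rfl, g6⟩⟩⟩
        obtain ⟨m, hm, hmJ⟩ := exists_powA hp hI g3 g4
        have g7 : m ≠ 0 := by
          rintro rfl
          rw [pow_zero, one_mul] at hmJ
          have h5 : nA J = nm (J i₀) * ∏ i ∈ univ.erase i₀, nm (cf I i) := by
            rw [nA, ← Finset.mul_prod_erase univ (fun i => nm (J i)) (mem_univ i₀)]
            congr 1
            refine Finset.prod_congr rfl fun i hi => ?_
            rw [hJ1 i (Finset.ne_of_mem_erase hi)]
          have h6 : nA (cf I) = nm (cf I i₀) * ∏ i ∈ univ.erase i₀, nm (cf I i) := by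
            rw [nA, ← Finset.mul_prod_erase univ (fun i => nm (cf I i)) (mem_univ i₀)]
          have h7 : 0 < ∏ i ∈ univ.erase i₀, nm (cf I i) :=
            Finset.prod_pos fun i _ => Pool.Agent.Y714.KF.nm_pos (hI i)
          rw [h5, h6] at hmJ
          have h8 := mul_right_cancel₀ h7.ne' hmJ
          rw [hJ0] at h8
          exact nm_q_ne (hI i₀) hq h8
        rw [hmJ]
        refine mul_le_mul_of_nonneg_right ?_ hIp.le
        calc (p : ℚ) = (p : ℚ) ^ 1 := (pow_one _).symm
          _ ≤ (p : ℚ) ^ m := pow_le_pow_right₀ hp1.le (Nat.one_le_iff_ne_zero.2 g7)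
      · push Not at hz
        obtain ⟨a, c, hac, m, hm, hm', he⟩ := hz
        have hac' : ¬ ((p : ℤ) ∣ a ∧ (p : ℤ) ∣ c) := fun h => hac h.1 h.2
        set J : FA K := fun i => sp (p : K i) * cf I i +
          sp ((a • (pr b z).1 + c • (pr b z).2) i) with hJ
        have hx : ∀ i, (a • (pr b z).1 + c • (pr b z).2) i ∈ cf I i := by
          intro i
          rw [zsm]
          exact (cf I i : Submodule (𝓞 (K i)) (K i)).add_mem
            (Pool.Agent.Y714.KF.intCast_mul_mem a (m1 i))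
            (Pool.Agent.Y714.KF.intCast_mul_mem c (m2 i))
        have g1 : ∀ i, sp (p : K i) * cf I i ≤ J i := by
          intro i
          rw [hJ]
          dsimp only
          rw [← sup_eq_add]
          exact le_sup_left
        have g2 : ∀ i, J i ≤ cf I i := by
          intro i
          rw [hJ]
          dsimp only
          rw [← sup_eq_add]
          exact sup_le (spI_le p) (Pool.Agent.Y714.KF.sp_le.2 (hx i))
        have g3 : ∀ i, (a : K i) * (pr b z).1 i + (c : K i) * (pr b z).2 i ∈ J i := by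
          intro i
          rw [← zsm, ← Pool.Agent.Y714.KF.sp_le, hJ]
          dsimp only
          rw [← sup_eq_add]
          exact le_sup_right
        obtain ⟨k, hk⟩ := exists_coef hp hac' hb g1 z g3
        refine ⟨J, (hFm _).2 fun i => ⟨g1 i, g2 i⟩, Or.inr ⟨k, Finset.mem_univ _, ?_, hk⟩⟩
        rw [he]
        refine mul_le_mul_of_nonneg_right ?_ hIp.le
        exact pow_le_pow_right₀ hp1.le (by omega)
    have hpow : p ^ (2 * dg K - 2) = p * p ^ (2 * dg K - 3) := by
      rw [← pow_succ']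
      congr 1
      omega
    have hcard : ({t | ∃ z : Ix K ⊕ Ix K → ℤ,
        (fun i => (z i : ZMod p)) = t ∧ Gd p (cf I) b z}ᶜ).ncard ≤
        2 ^ (dg K + 2) * p ^ (2 * dg K - 2) := by
      calc _ ≤ (⋃ J ∈ F, (A J ∪ ⋃ k ∈ (Finset.univ : Finset (Option (ZMod p))), B J k)).ncard :=
            Set.ncard_le_ncard hcov (Set.toFinite _)
        _ ≤ ∑ J ∈ F, (A J ∪ ⋃ k ∈ (Finset.univ : Finset (Option (ZMod p))), B J k).ncard :=
            Finset.set_ncard_biUnion_le _ _
        _ ≤ ∑ J ∈ F, (4 * p ^ (2 * dg K - 2)) := by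
            refine Finset.sum_le_sum fun J hJ => ?_
            calc _ ≤ (A J).ncard + (⋃ k ∈ (Finset.univ : Finset (Option (ZMod p))), B J k).ncard :=
                  Set.ncard_union_le _ _
              _ ≤ p ^ (2 * dg K - 2) +
                  ∑ k ∈ (Finset.univ : Finset (Option (ZMod p))), (B J k).ncard :=
                  Nat.add_le_add (hAc J hJ) (Finset.set_ncard_biUnion_le _ _)
              _ ≤ p ^ (2 * dg K - 2) +
                  ∑ k ∈ (Finset.univ : Finset (Option (ZMod p))), p ^ (2 * dg K - 3) :=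
                  Nat.add_le_add_left (Finset.sum_le_sum fun k _ => hBc J hJ k) _
              _ = p ^ (2 * dg K - 2) + (p + 1) * p ^ (2 * dg K - 3) := by
                  rw [Finset.sum_const, Finset.card_univ, Fintype.card_option, ZMod.card,
                    smul_eq_mul]
              _ ≤ 4 * p ^ (2 * dg K - 2) := by
                  rw [hpow]
                  have h5 := hp.one_lt
                  have h6 : 0 < p ^ (2 * dg K - 3) := pow_pos hp.pos _
                  nlinarith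
        _ = F.card * (4 * p ^ (2 * dg K - 2)) := by rw [Finset.sum_const, smul_eq_mul]
        _ ≤ 2 ^ dg K * (4 * p ^ (2 * dg K - 2)) := Nat.mul_le_mul_right _ hFc
        _ = 2 ^ (dg K + 2) * p ^ (2 * dg K - 2) := by
            rw [pow_add]
            ring
    exact_mod_cast hcard

end Pool.Agent.Y220.KE
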