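import Pool.Agent.Y714.KE.BasD

set_option autoImplicit false
set_option linter.unusedSectionVars false

/-! # KE-PAD: local factors at congruent pairs of coordinates, and null sets of levels -/

namespace Pool.Agent.Y220.KE

open Pool.Agent.Y714.KF (FI sp ct nm pm ext br gl ubas qf bk el sg bf)
open Pool.Agent.Y714.KE
open NumberField FractionalIdeal Module Finset ComplexConjugate MeasureTheory Filter Topology
open scoped nonZeroDivisors Pointwise

/-! ### one component -/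

section comp

variable {F : Type} [Field F] [NumberField F]

theorem ne_zero_of {p k : ℕ} (hp : p.Prime) (hk : 1 ≤ k) {β : 𝓞 F}
    (h : β * (p : 𝓞 F) ^ k = 1) : False := by
  have h1 : IsUnit (p : 𝓞 F) := by
    obtain ⟨j, rfl⟩ : ∃ j, k = j + 1 := ⟨k - 1, by omega⟩
    refine IsUnit.of_mul_eq_one (β * (p : 𝓞 F) ^ j) ?_
    rw [← h]
    ring
  have h2 := h1.map (Algebra.norm ℤ)
  have h3 : ((p : 𝓞 F)) = algebraMap ℤ (𝓞 F) (p : ℤ) := by simp
  rw [h3, Algebra.norm_algebraMap, RingOfIntegers.rank] at h2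
  have hn : finrank ℚ F ≠ 0 := finrank_pos.ne'
  rw [isUnit_pow_iff hn, Int.isUnit_iff] at h2
  have := hp.two_le
  omega

theorem coe_add_sp {a : Ideal (𝓞 F)} {p : ℕ} (h : a ⊔ Ideal.span {(p : 𝓞 F)} = ⊤) :
    (a : FI F) + sp (p : F) = 1 := by
  have h1 := congrArg (fun J : Ideal (𝓞 F) => (J : FI F)) h
  rw [coeIdeal_sup, coeIdeal_span_singleton, map_natCast, coeIdeal_top] at h1
  exact h1

/-- `p J + (x) = a (p I + (x))` if `J = a I`, `x ∈ J` and `a` is prime to `p` -/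
theorem comp_eq {p : ℕ} {I J : FI F} {a : Ideal (𝓞 F)} (ha : J = (a : FI F) * I)
    (hcop : a ⊔ Ideal.span {(p : 𝓞 F)} = ⊤) {x : F} (hx : sp x ≤ J) :
    sp (p : F) * J + sp x = (a : FI F) * (sp (p : F) * I + sp x) := by
  have hA1 : (a : FI F) + sp (p : F) = 1 := coe_add_sp hcop
  have hAle : (a : FI F) ≤ 1 := coeIdeal_le_one
  have e2 : (a : FI F) * (sp (p : F) * I + sp x) = sp (p : F) * J + (a : FI F) * sp x := by
    rw [ha]; ring
  rw [e2]
  apply le_antisymm
  · rw [← sup_eq_add, sup_le_iff]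
    refine ⟨?_, ?_⟩
    · rw [← sup_eq_add]; exact le_sup_left
    · calc sp x = ((a : FI F) + sp (p : F)) * sp x := by rw [hA1, one_mul]
        _ = sp (p : F) * sp x + (a : FI F) * sp x := by ring
        _ ≤ sp (p : F) * J + (a : FI F) * sp x := by gcongr
  · have : (a : FI F) * sp x ≤ sp x := by
      calc (a : FI F) * sp x ≤ 1 * sp x := by gcongr
        _ = sp x := one_mul _
    gcongr

/-- a multiplier which moves `I` to `J = a I` and is congruent to `1` -/
theorem comp_mul {p k0 : ℕ} (hp : p.Prime) {I J : FI F} {a : Ideal (𝓞 F)}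
    (ha : J = (a : FI F) * I) (hcop : a ⊔ Ideal.span {(p : 𝓞 F)} = ⊤) :
    ∃ α : F, α ≠ 0 ∧ ∀ u u' x : F, u ∈ J → x ∈ I → u' - u = (p : F) ^ (k0 + 1) * x →
      α * u' - u ∈ sp (p : F) ^ k0 * J := by
  have hcop2 : a ⊔ Ideal.span {(p : 𝓞 F)} ^ (k0 + 1) = ⊤ := Ideal.sup_pow_eq_top hcop
  have h1 : (1 : 𝓞 F) ∈ a ⊔ Ideal.span {(p : 𝓞 F)} ^ (k0 + 1) := by
    rw [hcop2]; trivial
  rw [Ideal.span_singleton_pow, Submodule.mem_sup] at h1
  obtain ⟨α, hα, β', hβ', hαβ⟩ := h1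
  obtain ⟨β, rfl⟩ := Ideal.mem_span_singleton'.1 hβ'
  have hα0 : α ≠ 0 := by
    rintro rfl
    rw [zero_add] at hαβ
    exact ne_zero_of hp (by omega) hαβ
  have hαK : (α : F) ≠ 0 := by
    intro h
    exact hα0 (by exact_mod_cast h)
  have hK : (α : F) + (β : F) * (p : F) ^ (k0 + 1) = 1 := by
    have := congrArg (algebraMap (𝓞 F) F) hαβ
    rw [map_add, map_mul, map_pow, map_natCast, map_one] at this
    exact this
  have hαa : (α : F) ∈ (a : FI F) := mem_coeIdeal_of_mem _ hα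
  have hαx : ∀ x ∈ I, (α : F) * x ∈ J := by
    intro x hx
    rw [ha]
    exact FractionalIdeal.mul_mem_mul hαa hx
  have hβx : ∀ x ∈ J, (β : F) * x ∈ J := by
    intro x hx
    have := (J : Submodule (𝓞 F) F).smul_mem β hx
    rw [Algebra.smul_def] at this
    exact this
  have hpow : ∀ y ∈ J, (p : F) ^ k0 * y ∈ sp (p : F) ^ k0 * J := by
    intro y hy
    refine FractionalIdeal.mul_mem_mul ?_ hy
    rw [spanSingleton_pow]
    exact mem_spanSingleton_self _ _
  refine ⟨(α : F), hαK, fun u u' x hu hx he => ?_⟩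
  have e1 : (α : F) * u' - u = (p : F) ^ k0 * ((p : F) * ((α : F) * x - (β : F) * u)) := by
    have e2 : u' = u + (p : F) ^ (k0 + 1) * x := by linear_combination he
    rw [e2]
    linear_combination u * hK
  rw [e1]
  apply hpow
  apply Pool.Agent.Y714.KF.natCast_mul_mem
  exact (J : Submodule (𝓞 F) F).sub_mem (hαx x hx) (hβx u hu)

end comp

/-! ### PAD -/

variable {s : Type} [Fintype s] [DecidableEq s] {K : s → Type} [∀ i, Field (K i)]
  [∀ i, NumberField (K i)]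

theorem coprime {p : ℕ} {I : FU K} {P : Al K × Al K} {a : ∀ i, Ideal (𝓞 (K i))}
    (ha : ∀ i, cn P i = (a i : FI (K i)) * (I i : FI (K i))) (hL : ¬ Cf p (cf I) (LT P)) (i : s) :
    a i ⊔ Ideal.span {(p : 𝓞 (K i))} = ⊤ := by
  by_contra hcon
  obtain ⟨q, hq, hle⟩ := Ideal.exists_le_maximal _ hcon
  apply hL
  refine ⟨i, q, hq.isPrime, hle (Ideal.mem_sup_right (Ideal.mem_span_singleton_self _)), ?_⟩
  intro x hx
  have h1 : x i ∈ cn P i := LT_mem (fun _ => le_rfl) hx i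
  rw [ha] at h1
  have h2 : (a i : FI (K i)) * (I i : FI (K i)) ≤ (q : FI (K i)) * (I i : FI (K i)) := by
    have : (a i : FI (K i)) ≤ (q : FI (K i)) :=
      (coeIdeal_le_coeIdeal (K i)).mpr (le_sup_left.trans hle)
    gcongr
  exact h2 h1

theorem redAt {p : ℕ} (hp : p.Prime) {I : FU K} {P : Al K × Al K} {a : ∀ i, Ideal (𝓞 (K i))}
    (ha : ∀ i, cn P i = (a i : FI (K i)) * (I i : FI (K i))) (hct : ∀ i, cn P i ≤ (I i : FI (K i)))
    (h0 : ∀ i, cn P i ≠ 0) (hL : Loc p (cf I) (LT P)) : RDAt p P := by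
  intro x hx hx'
  have hcop := coprime ha hL.1
  have hI : ∀ i, cf I i ≠ 0 := fun i => (I i).ne_zero
  have hA0 : ∀ i, (a i : FI (K i)) ≠ 0 := by
    intro i h
    have := ha i
    rw [h, zero_mul] at this
    exact h0 i this
  have hxc : ∀ i, sp (x i) ≤ cn P i := fun i =>
    Pool.Agent.Y714.KF.sp_le.2 (LT_mem (fun _ => le_rfl) hx i)
  obtain ⟨m, hm, hnm⟩ := exists_powA hp (I := cf I)
    (J := fun i => sp (p : K i) * cf I i + sp (x i)) hI
    (fun i => by
      show sp (p : K i) * cf I i ≤ sp (p : K i) * cf I i + sp (x i)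
      rw [← sup_eq_add]; exact le_sup_left)
    (fun i => by
      show sp (p : K i) * cf I i + sp (x i) ≤ cf I i
      rw [← sup_eq_add, sup_le_iff]
      refine ⟨?_, (hxc i).trans (hct i)⟩
      calc sp (p : K i) * cf I i ≤ 1 * cf I i := by
            have : sp (p : K i) ≤ 1 := by
              rw [Pool.Agent.Y714.KF.sp_le]
              have := FractionalIdeal.coe_mem_one (𝓞 (K i))⁰ (P := K i) (p : 𝓞 (K i))
              simpa using this
            gcongr
        _ = cf I i := one_mul _)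
  have h2m : 2 * m < dg K := by
    by_contra hcon
    exact hL.2 m hm (not_lt.mp hcon) ⟨x, hx, hx', hnm⟩
  have hIp : 0 < nA (cf I) := nA_pos hI
  have hAp : 0 < nA (K := K) (fun i => (a i : FI (K i))) := nA_pos hA0
  have e3 : nA (fun i => sp (p : K i) * cn P i + sp (x i)) =
      nA (K := K) (fun i => (a i : FI (K i))) * ((p : ℚ) ^ m * nA (cf I)) := by
    rw [← hnm, ← nA_mul]
    congr 1
    funext i
    exact comp_eq (ha i) (hcop i) (hxc i)
  have e4 : nA (cn P) = nA (K := K) (fun i => (a i : FI (K i))) * nA (cf I) := by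
    rw [← nA_mul]
    congr 1
    funext i
    exact ha i
  rw [e3, e4]
  have hp1 : (1 : ℚ) < p := by exact_mod_cast hp.one_lt
  have h5 : (p : ℚ) ^ (2 * m) < (p : ℚ) ^ dg K := pow_lt_pow_right₀ hp1 h2m
  generalize nA (K := K) (fun i => (a i : FI (K i))) = A at hAp ⊢
  generalize nA (cf I) = B at hIp ⊢
  calc (A * ((p : ℚ) ^ m * B)) ^ 2 = (p : ℚ) ^ (2 * m) * (A * B) ^ 2 := by
        rw [pow_mul']; ring
    _ < (p : ℚ) ^ dg K * (A * B) ^ 2 := by
        have : 0 < (A * B) ^ 2 := by positivity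
        gcongr

theorem pad : S_PAD K := by
  intro _ hn p hp φ hφ I b hb ε hε
  obtain ⟨k0, hk0⟩ := hφ.2.2 ε hε
  refine ⟨k0 + 1, ?_⟩
  intro z z' hN hN' hL hL' hz
  have hct : ∀ i, cn (pr b z) i ≤ (I i : FI (K i)) := fun i => cn_pr_le hb z i
  have h0 : ∀ i, cn (pr b z) i ≠ 0 := fun i => cn_ne (fun i => hN.ne (by omega) i) i
  -- the difference
  choose w hw using hz
  have hd : ∀ (i : s) (f : Fin (finrank ℚ (K i)) → Ix K ⊕ Ix K),
      ∃ x ∈ (I i : FI (K i)), el (b i) (fun j => z' (f j)) - el (b i) (fun j => z (f j)) =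
        (p : K i) ^ (k0 + 1) * x := by
    intro i f
    refine ⟨el (b i) (fun j => -w (f j)), (hb i _).2 ⟨_, rfl⟩, ?_⟩
    have h1 : (fun j => z' (f j)) = (fun j => z (f j)) + ((p : ℤ) ^ (k0 + 1)) •
        (fun j => -w (f j)) := by
      funext j
      simp only [Pi.add_apply, Pi.smul_apply, smul_eq_mul]
      linear_combination (-1 : ℤ) * hw (f j)
    rw [h1, Pool.Agent.Y714.KF.el_add, Pool.Agent.Y714.KF.el_smul]
    push_cast
    ring
  choose x1 hx1 hd1 using fun i => hd i (fun j => Sum.inl ⟨i, j⟩)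
  choose x2 hx2 hd2 using fun i => hd i (fun j => Sum.inr ⟨i, j⟩)
  -- the contents
  choose a ha using fun i => Pool.Agent.Y714.KF.exists_ideal
    (Pool.Agent.Y714.KF.inv_mul_le_one (I i).ne_zero (hct i))
  have ha' : ∀ i, cn (pr b z) i = (a i : FI (K i)) * (I i : FI (K i)) := by
    intro i
    rw [ha, mul_comm, ← mul_assoc, mul_inv_cancel₀ (I i).ne_zero, one_mul]
  have hred := redAt hp ha' hct h0 hL
  have hcop := coprime ha' hL.1
  choose α hα0 hα using fun i => comp_mul (k0 := k0) hp (ha' i) (hcop i)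
  have hfin := hk0 (pr b z) (sm α (pr b z')) hN (hN'.sm hα0) hred
    (fun i => hα i _ _ (x1 i) (Pool.Agent.Y714.KF.fst_mem_ct (cp (pr b z) i)) (hx1 i) (hd1 i))
    (fun i => hα i _ _ (x2 i) (Pool.Agent.Y714.KF.snd_mem_ct (cp (pr b z) i)) (hx2 i) (hd2 i))
  have e5 : φ (sm α (pr b z')) = φ (pr b z') := by
    refine hφ.2.1 _ _ hN' ⟨α, 1, 0, 0, 1, hα0, by norm_num, ?_⟩
    congr 1
    unfold glq
    simp
  rw [e5, abs_sub_comm] at hfin
  exact hfin

/-! ### LEV -/

/-- The levels of a positively homogeneous continuous function on an open cone are null sets. -/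
theorem levels {E : Type*} [NormedAddCommGroup E] [NormedSpace ℝ E] [MeasurableSpace E]
    [BorelSpace E] [FiniteDimensional ℝ E] (μ : Measure E) [μ.IsAddHaarMeasure] {U : Set E}
    (hU : IsOpen U) {g : E → ℝ} (hg : ContinuousOn g U) {d : ℕ} (hd : d ≠ 0)
    (hh : ∀ l : ℝ, 0 < l → ∀ u ∈ U, l • u ∈ U ∧ g (l • u) = l ^ d * g u) {c : ℝ} (hc : 0 < c) :
    μ {u | u ∈ U ∧ g u = c} = 0 := by
  classical
  have hdil : ∀ l : ℝ, 0 < l → ∀ t : ℝ,
      {u | u ∈ U ∧ g u = l ^ d * t} = l • {u | u ∈ U ∧ g u = t} := by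
    intro l hl t
    ext u
    rw [Set.mem_smul_set]
    constructor
    · rintro ⟨h1, h2⟩
      have h3 := hh l⁻¹ (inv_pos.2 hl) u h1
      refine ⟨l⁻¹ • u, ⟨h3.1, ?_⟩, ?_⟩
      · rw [h3.2, h2, ← mul_assoc, ← mul_pow, inv_mul_cancel₀ hl.ne', one_pow, one_mul]
      · rw [smul_smul, mul_inv_cancel₀ hl.ne', one_smul]
    · rintro ⟨v, ⟨h1, h2⟩, rfl⟩
      have h3 := hh l hl v h1
      exact ⟨h3.1, by rw [h3.2, h2]⟩
  have hroot : ∀ t : ℝ, 0 < t → ∃ l : ℝ, 0 < l ∧ l ^ d = t := by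
    intro t ht
    refine ⟨t ^ ((d : ℝ)⁻¹), by positivity, ?_⟩
    exact Real.rpow_inv_natCast_pow ht.le hd
  have hmeas : ∀ t : ℝ, 0 < t → (μ {u | u ∈ U ∧ g u = t} = 0 ↔ μ {u | u ∈ U ∧ g u = 1} = 0) := by
    intro t ht
    obtain ⟨l, hl, hlt⟩ := hroot t ht
    have h1 := hdil l hl 1
    rw [mul_one, hlt] at h1
    rw [h1, Measure.addHaar_smul, mul_eq_zero]
    constructor
    · rintro (h | h)
      · exfalso
        rw [ENNReal.ofReal_eq_zero] at h
        have : 0 < |l ^ finrank ℝ E| := abs_pos.2 (pow_ne_zero _ hl.ne')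
        linarith
      · exact h
    · exact fun h => Or.inr h
  rw [hmeas c hc]
  by_contra hne
  obtain ⟨G, hG⟩ : ∃ G : E → ℝ, G = U.piecewise g (fun _ => 0) := ⟨_, rfl⟩
  have hGm : Measurable G := by
    rw [hG]
    exact ContinuousOn.measurable_piecewise hg continuousOn_const hU.measurableSet
  have hcnt := Measure.countable_meas_level_set_pos (μ := μ) hGm
  have hsub : Set.Ioi (0 : ℝ) ⊆ {t : ℝ | 0 < μ {a : E | G a = t}} := by
    intro t ht
    have ht' : 0 < t := ht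
    have h1 : {a : E | G a = t} = {u | u ∈ U ∧ g u = t} := by
      ext a
      rw [hG]
      by_cases ha : a ∈ U
      · simp [Set.piecewise, ha]
      · simp only [Set.mem_ofPred_eq, Set.piecewise, ha, if_false, false_and, iff_false]
        exact ht'.ne
    show 0 < μ {a : E | G a = t}
    rw [h1, pos_iff_ne_zero, Ne, hmeas t ht']
    exact hne
  have h2 := (hcnt.mono hsub).measure_zero (volume : Measure ℝ)
  rw [Real.volume_Ioi] at h2
  exact ENNReal.top_ne_zero h2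

theorem rw2_smul (b : Bs K) (l : ℝ) (u : Ix K ⊕ Ix K → ℝ) :
    rw2 b (l • u) = fun e => (l : ℂ) • rw2 b u e := by
  funext e
  unfold rw2
  have h1 : (fun j => (l • u) (Sum.inl ⟨e.1, j⟩)) = l • fun j => u (Sum.inl ⟨e.1, j⟩) := rfl
  have h2 : (fun j => (l • u) (Sum.inr ⟨e.1, j⟩)) = l • fun j => u (Sum.inr ⟨e.1, j⟩) := rfl
  rw [h1, h2, Pool.Agent.Y714.KF.sg_smul, Pool.Agent.Y714.KF.sg_smul]
  rfl

theorem lev : S_LEV K := by
  intro _ h3 ψ hψ b
  obtain ⟨-, hcont, hsm, -⟩ := hψ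
  have hpm : Continuous fun u : Ix K ⊕ Ix K → ℝ => pm (rw2 b u) :=
    Pool.Agent.Y714.KF.continuous_pm.comp (continuous_rw2 b)
  have hsym : ∀ u : Ix K ⊕ Ix K → ℝ, SYM (rw2 b u) := fun u => SYM_rw2 b u
  have hcg : ContinuousOn (fun u => pm (rw2 b u) * ψ (rw2 b u)) {u | 0 < pm (rw2 b u)} := by
    refine hpm.continuousOn.mul ?_
    exact hcont.comp (continuous_rw2 b).continuousOn (fun u hu => ⟨hsym u, hu⟩)
  refine ⟨hcg, fun c hc => ?_⟩
  have hd : 2 * dg K ≠ 0 := by omega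
  refine levels volume (isOpen_lt continuous_const hpm) hcg hd ?_ hc
  intro l hl u hu
  have hu' : 0 < pm (rw2 b u) := hu
  have h1 : pm (rw2 b (l • u)) = l ^ (2 * dg K) * pm (rw2 b u) := by
    rw [rw2_smul, Pool.Agent.Y714.KF.pm_smul]
    congr 1
    rw [prod_const, card_univ, card_Em, Complex.norm_real, Real.norm_eq_abs, abs_of_pos hl,
      pow_mul]
  have h2 : ψ (rw2 b (l • u)) = ψ (rw2 b u) := by
    rw [rw2_smul]
    refine hsm (rw2 b u) (hsym u) hu' (fun _ => (l : ℂ)) (fun _ => ?_) (fun _ _ => ?_)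
    · exact_mod_cast hl.ne'
    · rw [Complex.conj_ofReal]
  constructor
  · show 0 < pm (rw2 b (l • u))
    rw [h1]
    positivity
  · show pm (rw2 b (l • u)) * ψ (rw2 b (l • u)) = _
    rw [h1, h2]
    ring

end Pool.Agent.Y220.KE
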